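import Pool.Agent.M3.FPInfo

/-!
# Interval discrepancy and dyadic relative entropy

`w` = a probability on `range (2 ^ N)`, `S N w j i` = mass of the `i`-th cell of level `j`
(length `2 ^ (N - j)`), `KL N w j` = relative entropy of the first `j` digits with respect to the
uniform law.  The discrepancy of an initial interval is at most `20 * sum_j (9/10)^j KL_j`.
-/

set_option autoImplicit false

namespace Pool.Agent.GM24

open Finset

/-- mass of the `i`-th cell of level `j` (length `2 ^ (N - j)`) -/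
noncomputable def S (N : ℕ) (w : ℕ → ℝ) (j i : ℕ) : ℝ :=
  ∑ x ∈ Ico (i * 2 ^ (N - j)) ((i + 1) * 2 ^ (N - j)), w x

/-- relative entropy of the first `j` digits -/
noncomputable def KL (N : ℕ) (w : ℕ → ℝ) (j : ℕ) : ℝ :=
  ∑ i ∈ range (2 ^ j), S N w j i * Real.log (S N w j i * 2 ^ j)

variable {N : ℕ} {w : ℕ → ℝ}

theorem S_nonneg (hw : ∀ x, 0 ≤ w x) (j i : ℕ) : 0 ≤ S N w j i :=
  Finset.sum_nonneg fun x _ => hw x

theorem S_split {j : ℕ} (hj : j < N) (i : ℕ) :
    S N w j i = S N w (j + 1) (2 * i) + S N w (j + 1) (2 * i + 1) := by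
  unfold S
  have h : 2 ^ (N - j) = 2 * 2 ^ (N - (j + 1)) := by
    have : N - j = (N - (j + 1)) + 1 := by omega
    rw [this, pow_succ]; ring
  have e1 : i * 2 ^ (N - j) = 2 * i * 2 ^ (N - (j + 1)) := by rw [h]; ring
  have e2 : (i + 1) * 2 ^ (N - j) = (2 * i + 1 + 1) * 2 ^ (N - (j + 1)) := by rw [h]; ring
  rw [e1, e2]
  refine (Finset.sum_Ico_consecutive w ?_ ?_).symm
  · exact Nat.mul_le_mul_right _ (Nat.le_succ _)
  · exact Nat.mul_le_mul_right _ (Nat.le_succ _)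

theorem sum_S {j : ℕ} (hj : j ≤ N) : ∑ i ∈ range (2 ^ j), S N w j i = ∑ x ∈ range (2 ^ N), w x := by
  have key : ∀ n : ℕ, ∑ i ∈ range n, S N w j i = ∑ x ∈ range (n * 2 ^ (N - j)), w x := by
    intro n
    induction n with
    | zero => simp
    | succ n ih =>
      rw [Finset.sum_range_succ, ih]
      unfold S
      rw [Finset.range_eq_Ico, Finset.range_eq_Ico]
      exact Finset.sum_Ico_consecutive w (Nat.zero_le _) (Nat.mul_le_mul_right _ (Nat.le_succ _))
  rw [key, ← pow_add]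
  congr 2
  congr 1
  omega

/-- `s log (s 2^j) ≥ s - 2^(-j)` -/
theorem ent_ge (j : ℕ) {s : ℝ} (hs : 0 ≤ s) : s - 1 / 2 ^ j ≤ s * Real.log (s * 2 ^ j) := by
  rcases hs.eq_or_lt with h | h
  · rw [← h]; simp
  · have h2 : (0 : ℝ) < 2 ^ j := by positivity
    have h3 := Real.one_sub_inv_le_log_of_pos (mul_pos h h2)
    have h4 : s * (1 - (s * 2 ^ j)⁻¹) ≤ s * Real.log (s * 2 ^ j) :=
      mul_le_mul_of_nonneg_left h3 h.le
    have h5 : s * (1 - (s * 2 ^ j)⁻¹) = s - 1 / 2 ^ j := by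
      field_simp
    linarith

theorem KL_nonneg (hw : ∀ x, 0 ≤ w x) (h1 : ∑ x ∈ range (2 ^ N), w x = 1) {j : ℕ} (hj : j ≤ N) :
    0 ≤ KL N w j := by
  have h : ∑ i ∈ range (2 ^ j), (S N w j i - 1 / 2 ^ j) ≤ KL N w j :=
    Finset.sum_le_sum fun i _ => ent_ge j (S_nonneg hw j i)
  rw [Finset.sum_sub_distrib, sum_S hj, h1] at h
  simp at h
  exact h

theorem KL_ge (hw : ∀ x, 0 ≤ w x) (h1 : ∑ x ∈ range (2 ^ N), w x = 1) {j i : ℕ} (hj : j ≤ N)
    (hi : i < 2 ^ j) :
    S N w j i * (Real.log (S N w j i * 2 ^ j) - 1) ≤ KL N w j := by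
  have hm : i ∈ range (2 ^ j) := Finset.mem_range.mpr hi
  have h2 := sum_S (w := w) hj
  rw [h1, ← Finset.add_sum_erase _ _ hm] at h2
  unfold KL
  rw [← Finset.add_sum_erase _ _ hm]
  have h : ∑ k ∈ (range (2 ^ j)).erase i, (S N w j k - 1 / 2 ^ j) ≤
      ∑ k ∈ (range (2 ^ j)).erase i, S N w j k * Real.log (S N w j k * 2 ^ j) :=
    Finset.sum_le_sum fun k _ => ent_ge j (S_nonneg hw j k)
  rw [Finset.sum_sub_distrib, Finset.sum_const, Finset.card_erase_of_mem hm, Finset.card_range,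
    nsmul_eq_mul] at h
  have h3 : (((2 ^ j - 1 : ℕ) : ℝ)) * (1 / 2 ^ j) ≤ 1 := by
    have h4 : (((2 ^ j - 1 : ℕ) : ℝ)) ≤ 2 ^ j := by
      have : 2 ^ j - 1 ≤ 2 ^ j := Nat.sub_le _ _
      exact_mod_cast this
    rw [mul_one_div]
    exact div_le_one_of_le₀ h4 (by positivity)
  nlinarith

/-- splitting a cell of mass `p + q` -/
theorem bin_split {p q : ℝ} (hp : 0 ≤ p) (hq : 0 ≤ q) (j : ℕ) :
    (p - q) ^ 2 / 2 ≤ (p + q) * (p * Real.log (p * 2 ^ (j + 1)) + q * Real.log (q * 2 ^ (j + 1)) -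
      (p + q) * Real.log ((p + q) * 2 ^ j)) := by
  rcases (add_nonneg hp hq).eq_or_lt with h | hs
  · have hp0 : p = 0 := by linarith
    have hq0 : q = 0 := by linarith
    rw [hp0, hq0]; simp
  have hb : |(p - q) / (p + q)| ≤ 1 := by
    rw [abs_div, abs_of_pos hs]
    refine div_le_one_of_le₀ ?_ hs.le
    rw [abs_le]; constructor <;> linarith
  have h := Pool.Agent.M3.FP.bin_pinsker (b := (p - q) / (p + q)) (c := 0) hb (by norm_num)
  have e1 : 1 + (p - q) / (p + q) = 2 * p / (p + q) := by field_simp; ring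
  have e2 : 1 - (p - q) / (p + q) = 2 * q / (p + q) := by field_simp; ring
  rw [e1, e2] at h
  simp only [sub_zero, add_zero, div_one] at h
  have l1 : p * Real.log (p * 2 ^ (j + 1)) = p * (Real.log (2 * p / (p + q)) +
      Real.log ((p + q) * 2 ^ j)) := by
    rcases hp.eq_or_lt with h0 | h0
    · rw [← h0]; simp
    · rw [← Real.log_mul (by positivity) (by positivity)]
      congr 2
      field_simp
      ring
  have l2 : q * Real.log (q * 2 ^ (j + 1)) = q * (Real.log (2 * q / (p + q)) +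
      Real.log ((p + q) * 2 ^ j)) := by
    rcases hq.eq_or_lt with h0 | h0
    · rw [← h0]; simp
    · rw [← Real.log_mul (by positivity) (by positivity)]
      congr 2
      field_simp
      ring
  rw [l1, l2]
  have h' := mul_le_mul_of_nonneg_left h (by positivity : 0 ≤ (p + q) ^ 2)
  have e3 : (p + q) ^ 2 * (((p - q) / (p + q)) ^ 2 / 2) = (p - q) ^ 2 / 2 := by
    field_simp
  have e4 : (p + q) ^ 2 * (2 * p / (p + q) / 2 * Real.log (2 * p / (p + q)) +
      2 * q / (p + q) / 2 * Real.log (2 * q / (p + q))) =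
      (p + q) * (p * Real.log (2 * p / (p + q)) + q * Real.log (2 * q / (p + q))) := by
    field_simp
  rw [e3, e4] at h'
  refine h'.trans (le_of_eq ?_)
  ring

/-- the gain of a level dominates the square of the bias of every cell -/
theorem KL_bias (hw : ∀ x, 0 ≤ w x) {j i : ℕ} (hj : j < N)
    (hi : i < 2 ^ j) :
    2 * (S N w (j + 1) (2 * i) - S N w j i / 2) ^ 2 ≤ S N w j i * (KL N w (j + 1) - KL N w j) := by
  have hgain : ∀ k, 0 ≤ S N w (j + 1) (2 * k) * Real.log (S N w (j + 1) (2 * k) * 2 ^ (j + 1)) +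
      S N w (j + 1) (2 * k + 1) * Real.log (S N w (j + 1) (2 * k + 1) * 2 ^ (j + 1)) -
      S N w j k * Real.log (S N w j k * 2 ^ j) := by
    intro k
    have h := bin_split (S_nonneg (N := N) hw (j + 1) (2 * k)) (S_nonneg (N := N) hw (j + 1) (2 * k + 1)) j
    rw [← S_split hj] at h
    rcases (S_nonneg hw j k (N := N)).eq_or_lt with h0 | h0
    · have hs := S_split (w := w) hj k
      have p0 := S_nonneg hw (j + 1) (2 * k) (N := N)
      have q0 := S_nonneg hw (j + 1) (2 * k + 1) (N := N)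
      have e1 : S N w (j + 1) (2 * k) = 0 := by linarith
      have e2 : S N w (j + 1) (2 * k + 1) = 0 := by linarith
      rw [e1, e2, ← h0]; simp
    · by_contra hc
      push Not at hc
      have := mul_neg_of_pos_of_neg h0 hc
      nlinarith [sq_nonneg (S N w (j + 1) (2 * k) - S N w (j + 1) (2 * k + 1))]
  have hKL : KL N w (j + 1) - KL N w j = ∑ k ∈ range (2 ^ j),
      (S N w (j + 1) (2 * k) * Real.log (S N w (j + 1) (2 * k) * 2 ^ (j + 1)) +
      S N w (j + 1) (2 * k + 1) * Real.log (S N w (j + 1) (2 * k + 1) * 2 ^ (j + 1)) -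
      S N w j k * Real.log (S N w j k * 2 ^ j)) := by
    rw [Finset.sum_sub_distrib]
    unfold KL
    congr 1
    have : ∀ (n : ℕ) (f : ℕ → ℝ), ∑ i ∈ range (2 * n), f i =
        ∑ k ∈ range n, (f (2 * k) + f (2 * k + 1)) := by
      intro n f
      induction n with
      | zero => simp
      | succ n ih =>
        rw [show 2 * (n + 1) = 2 * n + 1 + 1 by ring, Finset.sum_range_succ, Finset.sum_range_succ, ih,
          Finset.sum_range_succ]
        ring
    rw [pow_succ, mul_comm, this]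
  have hm : i ∈ range (2 ^ j) := Finset.mem_range.mpr hi
  have hle := Finset.single_le_sum (f := fun k =>
      (S N w (j + 1) (2 * k) * Real.log (S N w (j + 1) (2 * k) * 2 ^ (j + 1)) +
      S N w (j + 1) (2 * k + 1) * Real.log (S N w (j + 1) (2 * k + 1) * 2 ^ (j + 1)) -
      S N w j k * Real.log (S N w j k * 2 ^ j))) (fun k _ => hgain k) hm
  rw [← hKL] at hle
  have h := bin_split (S_nonneg (N := N) hw (j + 1) (2 * i)) (S_nonneg (N := N) hw (j + 1) (2 * i + 1)) j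
  rw [← S_split hj] at h
  have hs := S_split (w := w) hj i
  have e : 2 * (S N w (j + 1) (2 * i) - S N w j i / 2) ^ 2 =
      (S N w (j + 1) (2 * i) - S N w (j + 1) (2 * i + 1)) ^ 2 / 2 := by
    rw [hs]; ring
  rw [e]
  refine h.trans (mul_le_mul_of_nonneg_left hle (S_nonneg hw j i))

/-- signed discrepancy inside the cell of level `j` which contains `e` -/
noncomputable def Fd (N : ℕ) (w : ℕ → ℝ) (e j : ℕ) : ℝ :=
  ∑ x ∈ Ico (e / 2 ^ (N - j) * 2 ^ (N - j)) e, w x -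
    S N w j (e / 2 ^ (N - j)) * ((e % 2 ^ (N - j) : ℕ) : ℝ) / 2 ^ (N - j)

theorem Fd_step (e : ℕ) {j : ℕ} (hj : j < N) :
    |Fd N w e j| ≤ |Fd N w e (j + 1)| +
      |S N w (j + 1) (2 * (e / 2 ^ (N - j))) - S N w j (e / 2 ^ (N - j)) / 2| := by
  set l := 2 ^ (N - (j + 1)) with hl
  have hlpos : 0 < l := by positivity
  have hL : 2 ^ (N - j) = 2 * l := by
    have : N - j = (N - (j + 1)) + 1 := by omega
    rw [this, pow_succ]; ring
  have hLr : ((2 : ℝ) ^ (N - j)) = 2 * (l : ℝ) := by exact_mod_cast congrArg (Nat.cast (R := ℝ)) hL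
  have hlr : ((2 : ℝ) ^ (N - (j + 1))) = (l : ℝ) := by rw [hl]; push_cast; ring
  set i := e / 2 ^ (N - j) with hi
  set r := e % 2 ^ (N - j) with hr
  have he : e = i * (2 * l) + r := by
    rw [hi, hr, hL]; exact (Nat.div_add_mod' e (2 * l)).symm
  have hrlt : r < 2 * l := by rw [hr, hL]; exact Nat.mod_lt _ (by omega)
  have hsp := S_split (w := w) hj i
  have hlR : (0 : ℝ) < l := by exact_mod_cast hlpos
  unfold Fd
  rw [← hi, ← hr, ← hl, hLr, hlr, hL]
  rcases lt_or_ge r l with h | h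
  · have h1 : e / l = 2 * i := by
      rw [he, show i * (2 * l) + r = r + l * (2 * i) by ring, Nat.add_mul_div_left _ _ hlpos,
        Nat.div_eq_of_lt h, zero_add]
    have h2 : e % l = r := by
      rw [he, show i * (2 * l) + r = r + l * (2 * i) by ring, Nat.add_mul_mod_self_left,
        Nat.mod_eq_of_lt h]
    rw [h1, h2, show 2 * i * l = i * (2 * l) by ring]
    set A := ∑ x ∈ Ico (i * (2 * l)) e, w x
    set s := S N w (j + 1) (2 * i)
    set s0 := S N w j i
    have hx : A - s0 * (r : ℝ) / (2 * l) = (A - s * (r : ℝ) / l) + (r : ℝ) / l * (s - s0 / 2) := by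
      field_simp; ring
    rw [hx]
    refine (abs_add_le _ _).trans (add_le_add le_rfl ?_)
    rw [abs_mul]
    refine mul_le_of_le_one_left (abs_nonneg _) ?_
    rw [abs_of_nonneg (by positivity)]
    refine div_le_one_of_le₀ ?_ hlR.le
    exact_mod_cast h.le
  · obtain ⟨r', hr'⟩ : ∃ r', r = l + r' := ⟨r - l, by omega⟩
    have hr'lt : r' < l := by omega
    have h1 : e / l = 2 * i + 1 := by
      rw [he, hr', show i * (2 * l) + (l + r') = r' + l * (2 * i + 1) by ring,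
        Nat.add_mul_div_left _ _ hlpos, Nat.div_eq_of_lt hr'lt, zero_add]
    have h2 : e % l = r' := by
      rw [he, hr', show i * (2 * l) + (l + r') = r' + l * (2 * i + 1) by ring,
        Nat.add_mul_mod_self_left, Nat.mod_eq_of_lt hr'lt]
    rw [h1, h2]
    have hA : ∑ x ∈ Ico (i * (2 * l)) e, w x = S N w (j + 1) (2 * i) +
        ∑ x ∈ Ico ((2 * i + 1) * l) e, w x := by
      unfold S
      rw [← hl, show i * (2 * l) = 2 * i * l by ring]
      refine (Finset.sum_Ico_consecutive w (Nat.mul_le_mul_right _ (Nat.le_succ _)) ?_).symm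
      rw [he, hr']; nlinarith
    rw [hA, hr']
    set A := ∑ x ∈ Ico ((2 * i + 1) * l) e, w x
    set s := S N w (j + 1) (2 * i)
    set s1 := S N w (j + 1) (2 * i + 1)
    rw [hsp]
    have hx : s + A - (s + s1) * ((l + r' : ℕ) : ℝ) / (2 * l) =
        (A - s1 * (r' : ℝ) / l) + (1 - (r' : ℝ) / l) * (s - (s + s1) / 2) := by
      push_cast; field_simp; ring
    rw [hx]
    refine (abs_add_le _ _).trans (add_le_add le_rfl ?_)
    rw [abs_mul]
    refine mul_le_of_le_one_left (abs_nonneg _) ?_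
    have h3 : (r' : ℝ) / l ≤ 1 := by
      refine div_le_one_of_le₀ ?_ hlR.le
      exact_mod_cast hr'lt.le
    have h4 : 0 ≤ (r' : ℝ) / l := by positivity
    rw [abs_of_nonneg (by linarith)]
    linarith

theorem Fd_le (hw : ∀ x, 0 ≤ w x) (e j : ℕ) : |Fd N w e j| ≤ S N w j (e / 2 ^ (N - j)) := by
  unfold Fd
  set L := 2 ^ (N - j) with hL
  have hLpos : 0 < L := by positivity
  have hLr : ((2 : ℝ) ^ (N - j)) = (L : ℝ) := by rw [hL]; push_cast; ring
  rw [hLr]
  have hLR : (0 : ℝ) < L := by exact_mod_cast hLpos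
  have h0 : 0 ≤ S N w j (e / L) := S_nonneg hw j _
  have h1 : 0 ≤ ∑ x ∈ Ico (e / L * L) e, w x := Finset.sum_nonneg fun x _ => hw x
  have h2 : ∑ x ∈ Ico (e / L * L) e, w x ≤ S N w j (e / L) := by
    unfold S
    rw [← hL]
    refine Finset.sum_le_sum_of_subset_of_nonneg ?_ (fun x _ _ => hw x)
    refine Finset.Ico_subset_Ico le_rfl ?_
    have := Nat.div_add_mod' e L
    have h3 := Nat.mod_lt e hLpos
    nlinarith
  have h3 : ((e % L : ℕ) : ℝ) ≤ L := by exact_mod_cast (Nat.mod_lt e hLpos).le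
  have h4 : S N w j (e / L) * ((e % L : ℕ) : ℝ) / L ≤ S N w j (e / L) := by
    rw [div_le_iff₀ hLR]
    exact mul_le_mul_of_nonneg_left h3 h0
  have h5 : 0 ≤ S N w j (e / L) * ((e % L : ℕ) : ℝ) / L := by positivity
  rw [abs_le]; constructor <;> linarith

theorem Fd_zero (h1 : ∑ x ∈ range (2 ^ N), w x = 1) {e : ℕ} (he : e < 2 ^ N) :
    Fd N w e 0 = ∑ x ∈ range e, w x - e / 2 ^ N := by
  unfold Fd S
  rw [Nat.sub_zero, Nat.div_eq_of_lt he, Nat.mod_eq_of_lt he]
  rw [zero_mul, zero_add, one_mul, ← Finset.range_eq_Ico, ← Finset.range_eq_Ico, h1, one_mul]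

theorem Fd_last (e : ℕ) : Fd N w e N = 0 := by
  unfold Fd
  simp [Nat.mod_one]

theorem Fd_iter (e : ℕ) {J : ℕ} (hJ : J ≤ N) :
    |Fd N w e 0| ≤ ∑ j ∈ range J,
      |S N w (j + 1) (2 * (e / 2 ^ (N - j))) - S N w j (e / 2 ^ (N - j)) / 2| + |Fd N w e J| := by
  induction J with
  | zero => simp
  | succ J ih =>
    have h := ih (by omega)
    have h2 := Fd_step (w := w) e (show J < N by omega)
    rw [Finset.sum_range_succ]
    linarith

theorem cell_lt {e j : ℕ} (he : e < 2 ^ N) (hj : j ≤ N) : e / 2 ^ (N - j) < 2 ^ j := by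
  rw [Nat.div_lt_iff_lt_mul (by positivity), ← pow_add]
  rwa [show j + (N - j) = N by omega]

theorem cell_mono (hw : ∀ x, 0 ≤ w x) (e : ℕ) {j : ℕ} (hj : j < N) :
    S N w (j + 1) (e / 2 ^ (N - (j + 1))) ≤ S N w j (e / 2 ^ (N - j)) := by
  set l := 2 ^ (N - (j + 1)) with hl
  have hlpos : 0 < l := by positivity
  have hL : 2 ^ (N - j) = l * 2 := by
    have : N - j = (N - (j + 1)) + 1 := by omega
    rw [this, pow_succ]
  have h1 : e / 2 ^ (N - j) = e / l / 2 := by rw [hL, Nat.div_div_eq_div_mul]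
  rw [h1, S_split hj]
  have p := S_nonneg (N := N) hw (j + 1) (2 * (e / l / 2))
  have q := S_nonneg (N := N) hw (j + 1) (2 * (e / l / 2) + 1)
  rcases Nat.even_or_odd (e / l) with h | h
  · obtain ⟨k, hk⟩ := h
    have : 2 * (e / l / 2) = e / l := by omega
    rw [this] at p q ⊢; linarith
  · obtain ⟨k, hk⟩ := h
    have : 2 * (e / l / 2) + 1 = e / l := by omega
    rw [this] at q ⊢; linarith

theorem log_const : (9 / 5 : ℝ) ≤ Real.log (27 / 4) := by
  rw [Real.le_log_iff_exp_le (by norm_num)]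
  have h1 : (Real.exp (9 / 5)) ^ 5 = (Real.exp 1) ^ 9 := by
    rw [← Real.exp_nat_mul, ← Real.exp_nat_mul]; norm_num
  have h2 : (Real.exp 1) ^ 9 ≤ (2.7182818286 : ℝ) ^ 9 :=
    pow_le_pow_left₀ (Real.exp_pos 1).le Real.exp_one_lt_d9.le 9
  have h3 : (2.7182818286 : ℝ) ^ 9 ≤ (27 / 4 : ℝ) ^ 5 := by norm_num
  by_contra hc
  push Not at hc
  have := pow_lt_pow_left₀ hc (by norm_num) (show (5 : ℕ) ≠ 0 by norm_num)
  rw [h1] at this
  linarith

/-- discrepancy of an initial interval -/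
theorem disc (hw : ∀ x, 0 ≤ w x) (h1 : ∑ x ∈ range (2 ^ N), w x = 1) {e : ℕ} (he : e ≤ 2 ^ N) :
    (∑ x ∈ range e, w x - e / 2 ^ N) ^ 2 ≤
      21 * ∑ j ∈ range N, (9 / 10 : ℝ) ^ (j + 1) * KL N w (j + 1) := by
  have hQ : ∀ j ∈ range N, 0 ≤ (9 / 10 : ℝ) ^ (j + 1) * KL N w (j + 1) := fun j hj =>
    mul_nonneg (by positivity) (KL_nonneg hw h1 (Finset.mem_range.mp hj))
  have hQ0 := Finset.sum_nonneg hQ
  rcases he.eq_or_lt with he0 | he
  · rw [he0, h1]
    push_cast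
    rw [div_self (by positivity)]
    simpa using hQ0
  rw [← Fd_zero h1 he]
  -- the basic estimate up to a level `J`
  have main : ∀ J ≤ N, (∀ j < J, S N w j (e / 2 ^ (N - j)) ≤ 2 * (3 / 4 : ℝ) ^ j) →
      (∑ j ∈ range J, |S N w (j + 1) (2 * (e / 2 ^ (N - j))) - S N w j (e / 2 ^ (N - j)) / 2|) ^ 2 ≤
        20 / 3 * ∑ j ∈ range N, (9 / 10 : ℝ) ^ (j + 1) * KL N w (j + 1) := by
    intro J hJ hsm
    have hcs := Finset.sum_mul_sq_le_sq_mul_sq (range J) (fun j => (Real.sqrt (5 / 6)) ^ j)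
      (fun j => (Real.sqrt (5 / 6))⁻¹ ^ j *
        |S N w (j + 1) (2 * (e / 2 ^ (N - j))) - S N w j (e / 2 ^ (N - j)) / 2|)
    have hs : (Real.sqrt (5 / 6)) ≠ 0 := by positivity
    have hs2 : (Real.sqrt (5 / 6)) ^ 2 = 5 / 6 := Real.sq_sqrt (by norm_num)
    have e1 : ∀ j, (Real.sqrt (5 / 6)) ^ j * ((Real.sqrt (5 / 6))⁻¹ ^ j *
        |S N w (j + 1) (2 * (e / 2 ^ (N - j))) - S N w j (e / 2 ^ (N - j)) / 2|) =
        |S N w (j + 1) (2 * (e / 2 ^ (N - j))) - S N w j (e / 2 ^ (N - j)) / 2| := by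
      intro j
      rw [← mul_assoc, ← mul_pow, mul_inv_cancel₀ hs, one_pow, one_mul]
    simp only [e1] at hcs
    have hA : ∑ j ∈ range J, ((Real.sqrt (5 / 6)) ^ j) ^ 2 ≤ 6 := by
      have : ∀ j, ((Real.sqrt (5 / 6)) ^ j) ^ 2 = (5 / 6 : ℝ) ^ j := by
        intro j
        rw [← pow_mul, mul_comm, pow_mul, hs2]
      simp only [this]
      rw [geom_sum_eq (by norm_num)]
      have : (0 : ℝ) < (5 / 6) ^ J := by positivity
      rw [div_le_iff_of_neg (by norm_num)]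
      linarith
    have hB : ∑ j ∈ range J, ((Real.sqrt (5 / 6))⁻¹ ^ j *
        |S N w (j + 1) (2 * (e / 2 ^ (N - j))) - S N w j (e / 2 ^ (N - j)) / 2|) ^ 2 ≤
        10 / 9 * ∑ j ∈ range N, (9 / 10 : ℝ) ^ (j + 1) * KL N w (j + 1) := by
      rw [Finset.mul_sum]
      refine (Finset.sum_le_sum (g := fun j => 10 / 9 * ((9 / 10 : ℝ) ^ (j + 1) * KL N w (j + 1)))
        ?_).trans (Finset.sum_le_sum_of_subset_of_nonneg (Finset.range_mono hJ)
          (fun j hj _ => mul_nonneg (by norm_num) (hQ j hj)))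
      intro j hj
      have hjJ := Finset.mem_range.mp hj
      have hjN : j < N := by omega
      have hb := KL_bias hw hjN (cell_lt he hjN.le)
      have hKj := KL_nonneg hw h1 hjN.le
      have hKj1 := KL_nonneg hw h1 (show j + 1 ≤ N from hjN)
      have hμ := hsm j hjJ
      have hμ0 := S_nonneg (N := N) hw j (e / 2 ^ (N - j))
      rw [mul_pow, sq_abs, ← pow_mul, mul_comm j 2, pow_mul, inv_pow, hs2]
      have h5 : 2 * (S N w (j + 1) (2 * (e / 2 ^ (N - j))) - S N w j (e / 2 ^ (N - j)) / 2) ^ 2 ≤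
          2 * (3 / 4 : ℝ) ^ j * KL N w (j + 1) := by
        refine hb.trans ?_
        refine (mul_le_mul_of_nonneg_left (by linarith : KL N w (j + 1) - KL N w j ≤ KL N w (j + 1)) hμ0).trans ?_
        exact mul_le_mul_of_nonneg_right hμ hKj1
      have h6 : ((5 / 6 : ℝ)⁻¹) ^ j * ((3 / 4 : ℝ) ^ j * KL N w (j + 1)) =
          10 / 9 * ((9 / 10 : ℝ) ^ (j + 1) * KL N w (j + 1)) := by
        rw [← mul_assoc, ← mul_pow, pow_succ]
        norm_num
        ring
      rw [← h6]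
      refine mul_le_mul_of_nonneg_left ?_ (by positivity)
      linarith
    have hB0 : 0 ≤ ∑ j ∈ range J, ((Real.sqrt (5 / 6))⁻¹ ^ j *
        |S N w (j + 1) (2 * (e / 2 ^ (N - j))) - S N w j (e / 2 ^ (N - j)) / 2|) ^ 2 :=
      Finset.sum_nonneg fun _ _ => sq_nonneg _
    calc _ ≤ _ := hcs
      _ ≤ 6 * (10 / 9 * ∑ j ∈ range N, (9 / 10 : ℝ) ^ (j + 1) * KL N w (j + 1)) :=
        mul_le_mul hA hB hB0 (by norm_num)
      _ = _ := by ring
  by_cases hex : ∃ J, J ≤ N ∧ 2 * (3 / 4 : ℝ) ^ J < S N w J (e / 2 ^ (N - J))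
  · classical
    set J := Nat.find hex with hJdef
    obtain ⟨hJN, hJ⟩ := Nat.find_spec hex
    rw [← hJdef] at hJN hJ
    have hmin : ∀ j < J, S N w j (e / 2 ^ (N - j)) ≤ 2 * (3 / 4 : ℝ) ^ j := by
      intro j hj
      have := Nat.find_min hex hj
      push Not at this
      exact this (by omega)
    set m := S N w J (e / 2 ^ (N - J)) with hm
    have hm1 : m ≤ 1 := by
      rw [← h1, ← sum_S (w := w) hJN]
      exact Finset.single_le_sum (fun i _ => S_nonneg hw J i)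
        (Finset.mem_range.mpr (cell_lt he hJN))
    have hJ3 : 3 ≤ J := by
      by_contra hc
      have : J ≤ 2 := by omega
      have h5 : (3 / 4 : ℝ) ^ 2 ≤ (3 / 4 : ℝ) ^ J := pow_le_pow_of_le_one (by norm_num) (by norm_num) this
      have h6 : (3 / 4 : ℝ) ^ 2 = 9 / 16 := by norm_num
      linarith
    have hmpos : 0 < m := lt_trans (by positivity) hJ
    have hprev : m ≤ 8 / 3 * (3 / 4 : ℝ) ^ J := by
      have h5 := cell_mono hw e (show J - 1 < N by omega)
      rw [show J - 1 + 1 = J by omega] at h5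
      have h6 := hmin (J - 1) (by omega)
      have h7 : (3 / 4 : ℝ) ^ J = (3 / 4 : ℝ) ^ (J - 1) * (3 / 4) := by
        rw [← pow_succ, show J - 1 + 1 = J by omega]
      rw [h7]
      linarith
    have hlog : 9 / 5 ≤ Real.log (m * 2 ^ J) := by
      refine log_const.trans (Real.log_le_log (by norm_num) ?_)
      have h5 : (3 / 2 : ℝ) ^ 3 ≤ (3 / 2 : ℝ) ^ J := pow_le_pow_right₀ (by norm_num) hJ3
      have h6 : (3 / 4 : ℝ) ^ J * 2 ^ J = (3 / 2 : ℝ) ^ J := by
        rw [← mul_pow]; norm_num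
      have h7 : 2 * (3 / 4 : ℝ) ^ J * 2 ^ J ≤ m * 2 ^ J :=
        mul_le_mul_of_nonneg_right hJ.le (by positivity)
      have h8 : (3 / 2 : ℝ) ^ 3 = 27 / 8 := by norm_num
      nlinarith
    have hKL := KL_ge hw h1 hJN (cell_lt he hJN)
    rw [← hm] at hKL
    have hK : 4 / 5 * m ≤ KL N w J := by nlinarith
    have hKJ0 := KL_nonneg hw h1 hJN
    have hm2 : m ^ 2 ≤ 10 / 3 * ((9 / 10 : ℝ) ^ J * KL N w J) := by
      have h5 : (3 / 4 : ℝ) ^ J ≤ (9 / 10 : ℝ) ^ J := pow_le_pow_left₀ (by norm_num) (by norm_num) J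
      have h6 : m * m ≤ 8 / 3 * (3 / 4 : ℝ) ^ J * (5 / 4 * KL N w J) :=
        mul_le_mul hprev (by linarith) hmpos.le (by positivity)
      have h7 : (3 / 4 : ℝ) ^ J * KL N w J ≤ (9 / 10 : ℝ) ^ J * KL N w J :=
        mul_le_mul_of_nonneg_right h5 hKJ0
      nlinarith
    have hQJ : (9 / 10 : ℝ) ^ J * KL N w J ≤ ∑ j ∈ range N, (9 / 10 : ℝ) ^ (j + 1) * KL N w (j + 1) := by
      have h5 := Finset.single_le_sum hQ (Finset.mem_range.mpr (show J - 1 < N by omega))
      rwa [show J - 1 + 1 = J by omega] at h5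
    have hit := Fd_iter (w := w) e hJN
    have hFJ := Fd_le (N := N) hw e J
    rw [← hm] at hFJ
    have hmain := main J hJN hmin
    set B := ∑ j ∈ range J, |S N w (j + 1) (2 * (e / 2 ^ (N - j))) - S N w j (e / 2 ^ (N - j)) / 2|
    have hB0 : 0 ≤ B := Finset.sum_nonneg fun _ _ => abs_nonneg _
    have h9 : |Fd N w e 0| ≤ B + m := by linarith
    have h10 : (Fd N w e 0) ^ 2 ≤ (B + m) ^ 2 := by
      rw [← sq_abs]
      exact pow_le_pow_left₀ (abs_nonneg _) h9 2
    have h11 : (B + m) ^ 2 ≤ 2 * B ^ 2 + 2 * m ^ 2 := by nlinarith [sq_nonneg (B - m)]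
    linarith
  · push Not at hex
    have hit := Fd_iter (w := w) e (le_refl N)
    rw [Fd_last, abs_zero, add_zero] at hit
    have hmain := main N le_rfl (fun j hj => hex j hj.le)
    have h10 : (Fd N w e 0) ^ 2 ≤
        20 / 3 * ∑ j ∈ range N, (9 / 10 : ℝ) ^ (j + 1) * KL N w (j + 1) := by
      rw [← sq_abs]
      exact (pow_le_pow_left₀ (abs_nonneg _) hit 2).trans hmain
    linarith

/-- discrepancy of an interval -/
theorem disc_Ico (hw : ∀ x, 0 ≤ w x) (h1 : ∑ x ∈ range (2 ^ N), w x = 1) {e f : ℕ} (hef : e ≤ f)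
    (hf : f ≤ 2 ^ N) :
    (∑ x ∈ Ico e f, w x - ((f : ℝ) - e) / 2 ^ N) ^ 2 ≤
      84 * ∑ j ∈ range N, (9 / 10 : ℝ) ^ (j + 1) * KL N w (j + 1) := by
  have h2 := disc hw h1 hf
  have h3 := disc hw h1 (hef.trans hf)
  rw [Finset.sum_Ico_eq_sub w hef]
  set A := ∑ x ∈ range f, w x
  set B := ∑ x ∈ range e, w x
  have e1 : A - B - ((f : ℝ) - e) / 2 ^ N = (A - f / 2 ^ N) - (B - e / 2 ^ N) := by ring
  rw [e1]
  nlinarith [sq_nonneg ((A - f / 2 ^ N) + (B - e / 2 ^ N))]

/-- functions of bounded variation -/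
theorem disc_bv (hw : ∀ x, 0 ≤ w x) (h1 : ∑ x ∈ range (2 ^ N), w x = 1) (f : ℕ → ℝ) :
    (∑ x ∈ range (2 ^ N), w x * f x - (∑ x ∈ range (2 ^ N), f x) / 2 ^ N) ^ 2 ≤
      (∑ x ∈ range (2 ^ N - 1), |f (x + 1) - f x|) ^ 2 *
        (21 * ∑ j ∈ range N, (9 / 10 : ℝ) ^ (j + 1) * KL N w (j + 1)) := by
  set Q := 21 * ∑ j ∈ range N, (9 / 10 : ℝ) ^ (j + 1) * KL N w (j + 1) with hQ
  have hQ0 : 0 ≤ Q := by
    have := disc hw h1 (Nat.zero_le (2 ^ N))
    exact (sq_nonneg _).trans this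
  set W : ℕ → ℝ := fun e => ∑ x ∈ range e, (w x - 1 / 2 ^ N) with hW
  have hWd : ∀ e ≤ 2 ^ N, (W e) ^ 2 ≤ Q := by
    intro e he
    have := disc hw h1 he
    have e1 : W e = ∑ x ∈ range e, w x - e / 2 ^ N := by
      rw [hW]; simp only [Finset.sum_sub_distrib, Finset.sum_const, Finset.card_range, nsmul_eq_mul]
      ring
    rw [e1]; exact this
  have hWa : ∀ e ≤ 2 ^ N, |W e| ≤ Real.sqrt Q := fun e he => Real.abs_le_sqrt (hWd e he)
  have e2 : ∑ x ∈ range (2 ^ N), w x * f x - (∑ x ∈ range (2 ^ N), f x) / 2 ^ N =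
      ∑ x ∈ range (2 ^ N), (w x - 1 / 2 ^ N) * f x := by
    rw [Finset.sum_div, ← Finset.sum_sub_distrib]
    refine Finset.sum_congr rfl fun x _ => ?_
    ring
  have habel : ∀ n : ℕ, ∑ x ∈ range (n + 1), (w x - 1 / 2 ^ N) * f x =
      W (n + 1) * f n - ∑ x ∈ range n, W (x + 1) * (f (x + 1) - f x) := by
    intro n
    induction n with
    | zero => simp [hW]
    | succ n ih =>
      rw [Finset.sum_range_succ, ih, Finset.sum_range_succ _ n]
      have : W (n + 1 + 1) = W (n + 1) + (w (n + 1) - 1 / 2 ^ N) := by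
        rw [hW]; simp only; rw [Finset.sum_range_succ]
      rw [this]; ring
  obtain ⟨n, hn⟩ : ∃ n, 2 ^ N = n + 1 := ⟨2 ^ N - 1, by have := Nat.one_le_two_pow (n := N); omega⟩
  have hWend : W (n + 1) = 0 := by
    rw [← hn, hW]
    simp only [Finset.sum_sub_distrib, Finset.sum_const, Finset.card_range, nsmul_eq_mul, h1]
    push_cast
    field_simp
    ring
  rw [e2, hn, habel, hWend, zero_mul, zero_sub, neg_sq, Nat.add_sub_cancel]
  have h5 : |∑ x ∈ range n, W (x + 1) * (f (x + 1) - f x)| ≤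
      (∑ x ∈ range n, |f (x + 1) - f x|) * Real.sqrt Q := by
    refine (Finset.abs_sum_le_sum_abs _ _).trans ?_
    rw [Finset.sum_mul]
    refine Finset.sum_le_sum fun x hx => ?_
    rw [abs_mul, mul_comm]
    refine mul_le_mul_of_nonneg_left (hWa _ ?_) (abs_nonneg _)
    have := Finset.mem_range.mp hx
    omega
  have h6 : (∑ x ∈ range n, W (x + 1) * (f (x + 1) - f x)) ^ 2 ≤
      ((∑ x ∈ range n, |f (x + 1) - f x|) * Real.sqrt Q) ^ 2 := by
    rw [← sq_abs]
    exact pow_le_pow_left₀ (abs_nonneg _) h5 2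
  rwa [mul_pow, Real.sq_sqrt hQ0] at h6

end Pool.Agent.GM24
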